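import Mathlib
import Pool.Agent.TH118.CR.Irr

/-!
# A conjugation stable algebra acts faithfully on each invariant subspace
-/

set_option linter.unusedSectionVars false

namespace Pool.Agent.TH118.SC

open Module Pool.Agent.H204R3.SP Pool.Agent.H204R3.GP Pool.Agent.W522.U Pool.Agent.TH118.CR

variable {K : Type} [Field K] {X : Type} [AddCommGroup X] [Module K X]
  [FiniteDimensional K X] {Γ : Type} [Group Γ] {R : Representation K Γ X}

/-- The translate of a submodule. -/
def tr (A : Subalgebra K (End K X)) (hA : ∀ g : Γ, ∀ x ∈ A, R g * x * R g⁻¹ ∈ A)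
    (P : Submodule A X) (g : Γ) : Submodule A X where
  carrier := {v | R g⁻¹ v ∈ P}
  zero_mem' := by
    change R g⁻¹ 0 ∈ P
    rw [map_zero]
    exact P.zero_mem
  add_mem' := by
    intro u v hu hv
    change R g⁻¹ (u + v) ∈ P
    rw [map_add]
    exact P.add_mem hu hv
  smul_mem' := by
    intro x v hv
    change R g⁻¹ (x.1 v) ∈ P
    have h1 : R g⁻¹ (x.1 v) = (R g⁻¹ * x.1 * R g) (R g⁻¹ v) := by
      rw [Module.End.mul_apply, Module.End.mul_apply, Rinv']
    have h2 := hA g⁻¹ x.1 x.2
    rw [inv_inv] at h2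
    rw [h1]
    exact P.smul_mem ⟨_, h2⟩ hv

variable {A : Subalgebra K (End K X)} {hA : ∀ g : Γ, ∀ x ∈ A, R g * x * R g⁻¹ ∈ A}

theorem mem_tr {P : Submodule A X} {g : Γ} {v : X} : v ∈ tr A hA P g ↔ R g⁻¹ v ∈ P := Iff.rfl

theorem tr_simple {P : Submodule A X} (hP : IsSimpleModule A P) (g : Γ) :
    IsSimpleModule A (tr A hA P g) := by
  rw [isSimpleModule_iff_isAtom] at hP ⊢
  refine ⟨?_, fun N hN => ?_⟩
  · intro h
    obtain ⟨v, hv, hv0⟩ := Submodule.exists_mem_ne_zero_of_ne_bot hP.1
    have h1 : R g v ∈ tr A hA P g := by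
      rw [mem_tr, Rinv]
      exact hv
    rw [h, Submodule.mem_bot] at h1
    exact Rne g hv0 h1
  · have h1 : tr A hA N g⁻¹ < P := by
      refine lt_of_le_of_ne (fun v hv => ?_) ?_
      · rw [mem_tr, inv_inv] at hv
        have h2 := hN.le hv
        rwa [mem_tr, Rinv] at h2
      · intro h
        apply hN.ne
        refine le_antisymm hN.le fun v hv => ?_
        rw [mem_tr, ← h, mem_tr, inv_inv, Rinv'] at hv
        exact hv
    have h2 := hP.2 _ h1
    rw [eq_bot_iff]
    intro v hv
    have h3 : R g⁻¹ v ∈ tr A hA N g⁻¹ := by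
      rw [mem_tr, inv_inv, Rinv']
      exact hv
    rw [h2, Submodule.mem_bot] at h3
    by_contra h4
    exact Rne g⁻¹ h4 h3

/-- **A conjugation stable algebra of operators acts faithfully on every nonzero invariant
subspace** of a strongly irreducible space. -/
theorem ann (hX : SI R (⊤ : Submodule K X)) (A : Subalgebra K (End K X))
    (hA : ∀ g : Γ, ∀ x ∈ A, R g * x * R g⁻¹ ∈ A) {U : Submodule K X} (hU0 : U ≠ ⊥)
    (hU : ∀ x ∈ A, ∀ u ∈ U, x u ∈ U) {x : End K X} (hx : x ∈ A) (hxU : ∀ u ∈ U, x u = 0) :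
    x = 0 := by
  have : IsNoetherian A X := isNoetherian_of_tower K inferInstance
  have : IsArtinian A X := isArtinian_of_tower K inferInstance
  let U' : Submodule A X :=
    { carrier := U
      zero_mem' := U.zero_mem
      add_mem' := U.add_mem
      smul_mem' := fun y v hv => hU y.1 y.2 v hv }
  have hU'0 : U' ≠ ⊥ := by
    intro h
    apply hU0
    rw [eq_bot_iff]
    intro v hv
    have h1 : v ∈ U' := hv
    rw [h, Submodule.mem_bot] at h1
    exact h1
  obtain ⟨P, hP, hPU⟩ := (IsAtomic.eq_bot_or_exists_atom_le U').resolve_left hU'0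
  have hPs : IsSimpleModule A P := isSimpleModule_iff_isAtom.2 hP
  have hs : ∀ g, IsSimpleModule A (tr A hA P g) := fun g => tr_simple hPs g
  let f : Γ → isotypicComponents A X := fun g =>
    ⟨isotypicComponent A X (tr A hA P g), tr A hA P g, hs g, rfl⟩
  have hann : ∀ g g', f g = f g' → ∀ y ∈ A, (∀ v, R g⁻¹ v ∈ P → y v = 0) →
      ∀ v, R g'⁻¹ v ∈ P → y v = 0 := by
    intro g g' h y hy h1 v hv
    have h2 : isotypicComponent A X (tr A hA P g) = isotypicComponent A X (tr A hA P g') :=
      congrArg Subtype.val h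
    have h3 : tr A hA P g' ≤ isotypicComponent A X (tr A hA P g) := by
      rw [h2]
      exact Submodule.le_isotypicComponent _
    have := hs g
    have := hs g'
    obtain ⟨e⟩ := isIsotypicOfType_submodule_iff.mp
      (IsIsotypicOfType.isotypicComponent A X (tr A hA P g)) _ h3
    have h4 : (⟨y, hy⟩ : A) • (⟨v, hv⟩ : tr A hA P g') = 0 := by
      apply e.injective
      rw [map_smul, map_zero]
      apply Subtype.ext
      exact h1 _ (e ⟨v, hv⟩).2
    exact congrArg Subtype.val h4
  -- the subgroup
  let H : Subgroup Γ :=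
    { carrier := {g | ∀ y ∈ A, (∀ v ∈ P, y v = 0) ↔ ∀ v ∈ P, y (R g v) = 0}
      one_mem' := by
        intro y _
        simp
      mul_mem' := by
        intro g h hg hh y hy
        have h1 := hA g⁻¹ y hy
        rw [inv_inv] at h1
        have h2 := hh _ h1
        have h3 : (∀ v ∈ P, (R g⁻¹ * y * R g) v = 0) ↔ ∀ v ∈ P, y (R g v) = 0 := by
          refine forall₂_congr fun v _ => ?_
          rw [Module.End.mul_apply, Module.End.mul_apply]
          exact ⟨fun h => by by_contra h'; exact Rne g⁻¹ h' h, fun h => by rw [h, map_zero]⟩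
        have h4 : (∀ v ∈ P, (R g⁻¹ * y * R g) (R h v) = 0) ↔ ∀ v ∈ P, y (R (g * h) v) = 0 := by
          refine forall₂_congr fun v _ => ?_
          rw [Module.End.mul_apply, Module.End.mul_apply, map_mul, Module.End.mul_apply]
          exact ⟨fun h => by by_contra h'; exact Rne g⁻¹ h' h, fun h => by rw [h, map_zero]⟩
        rw [hg y hy, ← h3, h2, h4]
      inv_mem' := by
        intro g hg y hy
        have h1 := hA g y hy
        have h2 := hg _ h1
        have h3 : (∀ v ∈ P, (R g * y * R g⁻¹) (R g v) = 0) ↔ ∀ v ∈ P, y v = 0 := by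
          refine forall₂_congr fun v _ => ?_
          rw [Module.End.mul_apply, Module.End.mul_apply, Rinv]
          exact ⟨fun h => by by_contra h'; exact Rne g h' h, fun h => by rw [h, map_zero]⟩
        have h4 : (∀ v ∈ P, (R g * y * R g⁻¹) v = 0) ↔ ∀ v ∈ P, y (R g⁻¹ v) = 0 := by
          refine forall₂_congr fun v _ => ?_
          rw [Module.End.mul_apply, Module.End.mul_apply]
          exact ⟨fun h => by by_contra h'; exact Rne g h' h, fun h => by rw [h, map_zero]⟩
        rw [← h3, ← h2, h4] }
  have hH : H.FiniteIndex := by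
    refine fi_of_map H f fun g g' h y hy => ?_
    have h1 := hA g y hy
    have h2 : (∀ v ∈ P, y v = 0) ↔ ∀ v, R g⁻¹ v ∈ P → (R g * y * R g⁻¹) v = 0 := by
      constructor
      · intro h3 v hv
        rw [Module.End.mul_apply, Module.End.mul_apply, h3 _ hv, map_zero]
      · intro h3 v hv
        have h4 := h3 (R g v) (by rw [Rinv]; exact hv)
        rw [Module.End.mul_apply, Module.End.mul_apply, Rinv] at h4
        by_contra h'
        exact Rne g h' h4
    have h3 : (∀ v ∈ P, y (R (g⁻¹ * g') v) = 0) ↔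
        ∀ v, R g'⁻¹ v ∈ P → (R g * y * R g⁻¹) v = 0 := by
      constructor
      · intro h3 v hv
        have h4 := h3 _ hv
        rw [map_mul, Module.End.mul_apply, Rinv'] at h4
        rw [Module.End.mul_apply, Module.End.mul_apply, h4, map_zero]
      · intro h3 v hv
        have h4 := h3 (R g' v) (by rw [Rinv]; exact hv)
        rw [Module.End.mul_apply, Module.End.mul_apply] at h4
        rw [map_mul, Module.End.mul_apply]
        by_contra h'
        exact Rne g h' h4
    rw [h2, h3]
    exact ⟨hann g g' h _ h1, hann g' g h.symm _ h1⟩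
  let W : Submodule K X :=
    { carrier := {u | ∀ y ∈ A, (∀ v ∈ P, y v = 0) → y u = 0}
      zero_mem' := fun y _ _ => map_zero y
      add_mem' := fun {u v} hu hv y hy h => by rw [map_add, hu y hy h, hv y hy h, add_zero]
      smul_mem' := fun c u hu y hy h => by rw [map_smul, hu y hy h, smul_zero] }
  have hW : Pot R W := by
    refine ⟨H, hH, fun g hg u hu y hy h => ?_⟩
    have h1 := hA g⁻¹ y hy
    rw [inv_inv] at h1
    have h2 := hu _ h1 fun v hv => by
      rw [Module.End.mul_apply, Module.End.mul_apply, (hg y hy).1 h v hv, map_zero]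
    rw [Module.End.mul_apply, Module.End.mul_apply] at h2
    by_contra h'
    exact Rne g⁻¹ h' h2
  rcases hX.2.2 W le_top hW with h | h
  · exfalso
    obtain ⟨v, hv, hv0⟩ := Submodule.exists_mem_ne_zero_of_ne_bot hP.1
    have h1 : v ∈ W := fun y _ h => h v hv
    rw [h, Submodule.mem_bot] at h1
    exact hv0 h1
  · apply LinearMap.ext
    intro u
    have h1 : u ∈ W := by rw [h]; exact Submodule.mem_top
    exact h1 x hx fun v hv => hxU v (hPU hv)

/-- The version for a space of operators. -/
theorem ann_space (hX : SI R (⊤ : Submodule K X)) (L : Submodule K (End K X))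
    (hL : ∀ g : Γ, ∀ x ∈ L, R g * x * R g⁻¹ ∈ L) {U : Submodule K X} (hU0 : U ≠ ⊥)
    (hU : ∀ x ∈ L, ∀ u ∈ U, x u ∈ U) {x : End K X} (hx : x ∈ L) (hxU : ∀ u ∈ U, x u = 0) :
    x = 0 := by
  refine ann hX (Algebra.adjoin K (L : Set (End K X))) ?_ hU0 ?_ (Algebra.subset_adjoin hx) hxU
  · intro g y hy
    induction hy using Algebra.adjoin_induction with
    | mem y hy => exact Algebra.subset_adjoin (hL g y hy)
    | algebraMap c =>
      have h1 : R g * algebraMap K (End K X) c * R g⁻¹ = algebraMap K (End K X) c := by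
        rw [← Algebra.commutes, mul_assoc, ← map_mul, mul_inv_cancel, map_one, mul_one]
      rw [h1]
      exact Subalgebra.algebraMap_mem _ c
    | add y z _ _ hy hz =>
      rw [mul_add, add_mul]
      exact Subalgebra.add_mem _ hy hz
    | mul y z _ _ hy hz =>
      have h1 : R g * (y * z) * R g⁻¹ = (R g * y * R g⁻¹) * (R g * z * R g⁻¹) := by
        have h2 : R g⁻¹ * R g = 1 := by rw [← map_mul, inv_mul_cancel, map_one]
        calc R g * (y * z) * R g⁻¹ = R g * y * 1 * z * R g⁻¹ := by noncomm_ring
          _ = _ := by rw [← h2]; noncomm_ring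
      rw [h1]
      exact Subalgebra.mul_mem _ hy hz
  · intro y hy
    induction hy using Algebra.adjoin_induction with
    | mem y hy => exact hU y hy
    | algebraMap c =>
      intro u hu
      rw [Module.algebraMap_end_apply]
      exact U.smul_mem c hu
    | add y z _ _ hy hz =>
      intro u hu
      rw [LinearMap.add_apply]
      exact U.add_mem (hy u hu) (hz u hu)
    | mul y z _ _ hy hz =>
      intro u hu
      rw [Module.End.mul_apply]
      exact hy _ (hz u hu)

end Pool.Agent.TH118.SC
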