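import Mathlib
import Pool.Agent.TH118.SC.Whole

/-!
# Counting: an element of rank two
-/

set_option linter.unusedSectionVars false

namespace Pool.Agent.TH118.SC

open Module Pool.Agent.H204R3.SP Pool.Agent.H204R3.GP Pool.Agent.W522.U Pool.Agent.TH118.CR
open Pool.Agent.TH118.CU Pool.Agent.TH118.IS

section comb

/-- Half of a set with an involution. -/
theorem half {κ : Type} [DecidableEq κ] (ι : κ → κ) : ∀ (n : ℕ) (B : Finset κ), B.card = n →
    (∀ b ∈ B, ι b ∈ B ∧ ι (ι b) = b) → ∃ H ⊆ B, (∀ b ∈ B, b ∈ H ∨ ι b ∈ H) ∧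
      2 * H.card ≤ B.card + (B.filter fun b => ι b = b).card := by
  intro n
  induction n using Nat.strong_induction_on with
  | _ n ih =>
    intro B hB hι
    by_cases h : ∀ b ∈ B, ι b = b
    · refine ⟨B, Finset.Subset.refl _, fun b hb => Or.inl hb, ?_⟩
      rw [Finset.filter_true_of_mem h]
      omega
    · push Not at h
      obtain ⟨b, hb, hbb⟩ := h
      obtain ⟨hb1, hb2⟩ := hι b hb
      let B' := (B.erase b).erase (ι b)
      have h1 : ι b ∈ B.erase b := Finset.mem_erase.2 ⟨hbb, hb1⟩
      have hc1 : B'.card + 1 = (B.erase b).card := Finset.card_erase_add_one h1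
      have hc2 : (B.erase b).card + 1 = B.card := Finset.card_erase_add_one hb
      have hmem : ∀ c, c ∈ B' ↔ c ≠ ι b ∧ c ≠ b ∧ c ∈ B := by
        intro c
        rw [Finset.mem_erase, Finset.mem_erase]
      obtain ⟨H', hH', h2, h3⟩ := ih B'.card (by omega) B' rfl (fun c hc => by
        obtain ⟨e1, e2, e3⟩ := (hmem c).1 hc
        obtain ⟨e4, e5⟩ := hι c e3
        refine ⟨(hmem _).2 ⟨fun h => e2 ?_, fun h => e1 ?_, e4⟩, e5⟩
        · rw [← e5, h, hb2]
        · rw [← e5, h])
      refine ⟨insert b H', ?_, fun c hc => ?_, ?_⟩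
      · intro c hc
        rcases Finset.mem_insert.1 hc with rfl | hc
        · exact hb
        · exact ((hmem c).1 (hH' hc)).2.2
      · by_cases hcb : c = b
        · left
          rw [hcb]
          exact Finset.mem_insert_self _ _
        · by_cases hcb' : c = ι b
          · right
            rw [hcb', hb2]
            exact Finset.mem_insert_self _ _
          · rcases h2 c ((hmem c).2 ⟨hcb', hcb, hc⟩) with h | h
            · exact Or.inl (Finset.mem_insert_of_mem h)
            · exact Or.inr (Finset.mem_insert_of_mem h)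
      · have h4 : (B'.filter fun b => ι b = b).card ≤ (B.filter fun b => ι b = b).card := by
          refine Finset.card_le_card fun c hc => ?_
          rw [Finset.mem_filter] at hc ⊢
          exact ⟨((hmem c).1 hc.1).2.2, hc.2⟩
        have h5 := Finset.card_insert_le b H'
        omega

/-- Sets with involutions without fixed points. -/
theorem even_card {κ : Type} (B : Finset κ) (ι : κ → κ) (h : ∀ b ∈ B, ι b ∈ B ∧ ι (ι b) = b ∧ ι b ≠ b) :
    Even B.card := by
  have h1 : ∑ _x ∈ B, (1 : ZMod 2) = 0 := by
    refine Finset.sum_involution (fun b _ => ι b) (fun _ _ => by decide) (fun b hb _ => (h b hb).2.2)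
      (fun b hb => (h b hb).1) (fun b hb => (h b hb).2.1)
  rw [Finset.sum_const, nsmul_eq_mul, mul_one] at h1
  exact (ZMod.natCast_eq_zero_iff_even).1 h1

end comb

variable {K : Type} [Field K] {X : Type} [AddCommGroup X] [Module K X] [FiniteDimensional K X]

theorem finrank_sup_le {κ : Type} [DecidableEq κ] (B : Finset κ) (I : κ → Submodule K X) :
    finrank K (B.sup I : Submodule K X) ≤ ∑ b ∈ B, finrank K (I b) := by
  induction B using Finset.induction_on with
  | empty => simp
  | insert b B hb ih =>
    rw [Finset.sup_insert, Finset.sum_insert hb]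
    exact le_trans (Submodule.finrank_add_le_finrank_add_finrank _ _) (by omega)

end Pool.Agent.TH118.SC
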