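import Mathlib
import Pool.Agent.TH118.SC.Count

/-!
# An element of rank two with square zero
-/

set_option linter.unusedSectionVars false

namespace Pool.Agent.TH118.SC

open Module Pool.Agent.H204R3.SP Pool.Agent.H204R3.GP Pool.Agent.W522.U Pool.Agent.TH118.CR
open Pool.Agent.TH118.CU Pool.Agent.TH118.IS

variable {K : Type} [Field K] [CharZero K] [IsAlgClosed K] {X : Type} [AddCommGroup X]
  [Module K X] [FiniteDimensional K X] {Γ : Type} [Group Γ] {R : Representation K Γ X}
  {χ : Γ →* K} {γ : Γ}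

/-- The eigenvalues of `γ` different from `a`. -/
noncomputable def others (R : Representation K Γ X) (γ : Γ) (k : ℕ) (a : K) : Finset K :=
  letI := Classical.decPred fun α : K => α ≠ a ∧ eig R γ ⊤ α ≠ ⊥
  (Polynomial.nthRootsFinset k (1 : K)).filter fun α => α ≠ a ∧ eig R γ ⊤ α ≠ ⊥

theorem mem_others {k : ℕ} (hk : 0 < k) (hγ : R γ ^ k = 1) {a α : K} :
    α ∈ others R γ k a ↔ α ≠ a ∧ eig R γ ⊤ α ≠ ⊥ := by
  have h1 : α ∈ others R γ k a ↔ α ∈ Polynomial.nthRootsFinset k (1 : K) ∧
      (α ≠ a ∧ eig R γ ⊤ α ≠ ⊥) := by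
    let _ := Classical.decPred fun α : K => α ≠ a ∧ eig R γ ⊤ α ≠ ⊥
    exact Finset.mem_filter
  rw [h1, Polynomial.mem_nthRootsFinset hk]
  exact ⟨fun h => h.2, fun h => ⟨eig_root hγ h.2, h⟩⟩

/-- A generator of an eigenspace of dimension at most one. -/
theorem exists_gen {U : Submodule K X} (hU : finrank K U ≤ 1) :
    ∃ e ∈ U, ∀ v ∈ U, ∃ c : K, v = c • e := by
  by_cases h : U = ⊥
  · refine ⟨0, U.zero_mem, fun v hv => ⟨0, ?_⟩⟩
    rw [h, Submodule.mem_bot] at hv
    rw [hv, smul_zero]
  · obtain ⟨e, he, he0⟩ := Submodule.exists_mem_ne_zero_of_ne_bot h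
    have h1 : finrank K U = 1 := by
      refine le_antisymm hU ?_
      rw [Nat.one_le_iff_ne_zero]
      exact fun h2 => h (Submodule.finrank_eq_zero.1 h2)
    refine ⟨e, he, fun v hv => ?_⟩
    obtain ⟨c, hc⟩ := (finrank_eq_one_iff_of_nonzero' (⟨e, he⟩ : U)
      (fun h => he0 (congrArg Subtype.val h))).1 h1 ⟨v, hv⟩
    exact ⟨c, (congrArg Subtype.val hc).symm⟩

variable {k : ℕ} (hk : 0 < k) (hγ : R γ ^ k = 1) {a : K}

include hk hγ in
/-- The number of the other eigenvalues is at most the codimension. -/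
theorem card_others_le (e : K → X) (he : ∀ α ∈ others R γ k a, e α ∈ eig R γ ⊤ α ∧ e α ≠ 0) :
    (others R γ k a).card + finrank K (eig R γ ⊤ a) ≤ finrank K X := by
  have h1 : LinearIndependent K (fun α : others R γ k a => e α) := by
    refine Module.End.eigenvectors_linearIndependent' (R γ) (fun α : others R γ k a => (α : K))
      Subtype.val_injective _ fun α => ?_
    have h2 := he α α.2
    exact ⟨Module.End.mem_eigenspace_iff.2 (mem_eig.1 h2.1).2, h2.2⟩
  have h2 : finrank K (Submodule.span K (Set.range fun α : others R γ k a => e α)) =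
      (others R γ k a).card := by
    rw [finrank_span_eq_card h1, Fintype.card_coe]
  have h3 : Submodule.span K (Set.range fun α : others R γ k a => e α) ⊓ eig R γ ⊤ a = ⊥ := by
    obtain ⟨q, -, hq1, hq2⟩ := exists_projector (U := (⊤ : Submodule K X)) {a} hk hγ
      (fun u _ => Submodule.mem_top)
    rw [eq_bot_iff]
    rintro v ⟨hv1, hv2⟩
    rw [Submodule.mem_bot, ← hq1 v (eig_le_part (A := {a}) rfl hv2)]
    refine hq2 v (Submodule.span_le.2 ?_ hv1)
    rintro _ ⟨α, rfl⟩
    have h4 := (mem_others hk hγ).1 α.2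
    exact eig_le_part (A := {a}ᶜ) h4.1 (he α α.2).1
  have h4 := Submodule.finrank_sup_add_finrank_inf_eq
    (Submodule.span K (Set.range fun α : others R γ k a => e α)) (eig R γ ⊤ a)
  rw [h3, finrank_bot, add_zero, h2] at h4
  rw [← h4]
  exact Submodule.finrank_le _

variable {ω : X →ₗ[K] X →ₗ[K] K} (halt : ∀ v, ω v v = 0) (hnd : ∀ u, (∀ v, ω u v = 0) → u = 0)
  (hωR : ∀ g u v, ω (R g u) (R g v) = χ g * ω u v) (ha : a * a = χ γ)
  (hsim : ∀ α, α ≠ a → finrank K (eig R γ ⊤ α) ≤ 1)

include hk hγ halt hnd hωR ha hsim in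
/-- The opposite of `a` is not an eigenvalue. -/
theorem eig_neg (ha0 : a ≠ 0) : eig R γ ⊤ (-a) = ⊥ := by
  by_contra h
  have hne : -a ≠ a := by
    intro h1
    apply ha0
    have h2 : (2 : K) * a = 0 := by linear_combination -h1
    exact (mul_eq_zero.1 h2).resolve_left two_ne_zero
  obtain ⟨e, he, hgen⟩ := exists_gen (hsim _ hne)
  obtain ⟨v, hv, hv0⟩ := Submodule.exists_mem_ne_zero_of_ne_bot h
  apply hv0
  refine zero_of_dual hωR hk hγ (fun u _ => Submodule.mem_top)
    (fun u _ h => hnd u fun v => h v Submodule.mem_top) hv fun β hβ w hw => ?_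
  have h1 : β = -a := by
    have h2 : a * (β + a) = 0 := by linear_combination ha - hβ
    exact eq_neg_of_add_eq_zero_left ((mul_eq_zero.1 h2).resolve_left ha0)
  rw [h1] at hw
  obtain ⟨c, rfl⟩ := hgen v hv
  obtain ⟨c', rfl⟩ := hgen w hw
  rw [map_smul, map_smul, LinearMap.smul_apply, halt, smul_zero, smul_zero]

include hk hγ halt hnd hωR ha hsim in
/-- The number of the other eigenvalues is even. -/
theorem even_others : Even (others R γ k a).card := by
  have hχ : χ γ ≠ 0 := χne γ
  have ha0 : a ≠ 0 := by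
    rintro rfl
    rw [mul_zero] at ha
    exact hχ ha.symm
  refine even_card _ (fun α => χ γ * α⁻¹) fun α hα => ?_
  rw [mem_others hk hγ] at hα
  have hα0 := eig_ne hα.2
  refine ⟨?_, by field_simp, ?_⟩
  · rw [mem_others hk hγ]
    constructor
    · intro h
      apply hα.1
      have h2 : a * (α - a) = 0 := by
        have h3 : χ γ = a * α := by rw [← h, inv_mul_cancel_right₀ hα0]
        linear_combination -ha - h3
      exact sub_eq_zero.1 ((mul_eq_zero.1 h2).resolve_left ha0)
    · intro h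
      apply hα.2
      rw [← Submodule.finrank_eq_zero (R := K)] at h ⊢
      rwa [finrank_dual hωR hk hγ (fun u _ => Submodule.mem_top)
        (fun u _ h => hnd u fun v => h v Submodule.mem_top) hα0] at h
  · intro h
    have h2 : (α - a) * (α + a) = 0 := by
      have h3 : χ γ = α * α := (mul_inv_eq_iff_eq_mul₀ hα0).1 h
      linear_combination -h3 - ha
    rcases mul_eq_zero.1 h2 with h3 | h3
    · exact hα.1 (sub_eq_zero.1 h3)
    · apply hα.2
      rw [eq_neg_of_add_eq_zero_left h3]
      exact eig_neg hk hγ halt hnd hωR ha hsim ha0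

end Pool.Agent.TH118.SC
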