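import Mathlib
import Pool.Agent.TH118.SC.Two

/-!
# Tate classes and inertia of small codimension with simple eigenvalues
-/

set_option linter.unusedSectionVars false

namespace Pool.Agent.TH118.SC

open Module Pool.Agent.H204R3.SP Pool.Agent.H204R3.GP Pool.Agent.W522.U Pool.Agent.TH118.WC
open Pool.Agent.TH118.CR Pool.Agent.TH118.CU Pool.Agent.TH118.IS Pool.Agent.W529.Ta
open Pool.Agent.W528.Odd
open Pool.Agent.W528.Tor (AltDual)

section defs

variable {K : Type} [Field K] {X : Type} [AddCommGroup X] [Module K X]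
  {Γ : Type} [Group Γ] (R : Representation K Γ X) (χ : Γ →* K)

/-- There is an element `γ` of finite order, not a scalar, and an eigenvalue `a` of `γ` with
`a ^ 2 = χ(γ)` such that all other eigenvalues are simple and the codimension `c` of the eigenspace
for `a` satisfies `c ^ 2 < 2 d`, `d` the dimension of this eigenspace. -/
def HasSmallInertia : Prop :=
  ∃ γ : Γ, (∃ k : ℕ, 0 < k ∧ R γ ^ k = 1) ∧ ∃ a : K, a * a = χ γ ∧
    (∀ α, α ≠ a → finrank K (Module.End.eigenspace (R γ) α) ≤ 1) ∧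
    (∃ α, α ≠ a ∧ Module.End.eigenspace (R γ) α ≠ ⊥) ∧
    (finrank K X - finrank K (Module.End.eigenspace (R γ) a)) ^ 2 <
      2 * finrank K (Module.End.eigenspace (R γ) a)

/-- There is a diagonalizable element of the group with two eigenvalues whose quotient is not a
root of unity. -/
def HasFrobenius : Prop :=
  ∃ (F : Γ) (b : Basis (Fin (finrank K X)) K X) (l : Fin (finrank K X) → K),
    (∀ i, R F (b i) = l i • b i) ∧ ∃ i j, ∀ k : ℕ, 0 < k → l i ^ k ≠ l j ^ k

end defs

variable {K : Type} [Field K] [CharZero K] [IsAlgClosed K] {X : Type} [AddCommGroup X]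
  [Module K X] [FiniteDimensional K X] {Γ : Type} [Group Γ] {R : Representation K Γ X}
  {χ : Γ →* K}

theorem eig_top (γ : Γ) (α : K) : IS.eig R γ ⊤ α = Module.End.eigenspace (R γ) α := by
  rw [IS.eig, top_inf_eq]

/-- The element of the Lie algebra. -/
theorem small_N' {ω : X →ₗ[K] X →ₗ[K] K} (halt : ∀ v, ω v v = 0)
    (hnd : ∀ u, (∀ v, ω u v = 0) → u = 0)
    (hωR : ∀ g u v, ω (R g u) (R g v) = χ g * ω u v)
    (hX : SI R (⊤ : Submodule K X)) (hin : HasSmallInertia R χ) (hF : HasFrobenius R) :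
    ∃ N ∈ lieT R χ, N * N = 0 ∧ N ≠ 0 ∧ finrank K ((⊤ : Submodule K X).map N) ≤ 2 := by
  obtain ⟨γ, ⟨k, hk, hγ⟩, a, ha, hsim, ⟨α, hα, hα0⟩, hsmall⟩ := hin
  obtain ⟨F, b, l, hb, i, j, hij⟩ := hF
  refine small_N hk hγ halt hnd hωR ha (fun β hβ => ?_) hX ?_ ⟨α, hα, ?_⟩ ?_
  · rw [eig_top]
    exact hsim β hβ
  · obtain ⟨Y, hY, s, t, hst, h1, h2⟩ := exists_nonscalar R χ F b (fun i => ⟨l i, hb i⟩)
      (b.ne_zero i) (b.ne_zero j) (hb i) (hb j) hij
    refine ⟨Y, hY, ?_⟩
    rintro ⟨c, hc⟩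
    apply hst
    have h3 : s = c := by
      have h4 : (s - c) • b i = 0 := by rw [sub_smul, ← h1, hc, sub_self]
      exact sub_eq_zero.1 ((smul_eq_zero.1 h4).resolve_right (b.ne_zero i))
    have h5 : t = c := by
      have h4 : (t - c) • b j = 0 := by rw [sub_smul, ← h2, hc, sub_self]
      exact sub_eq_zero.1 ((smul_eq_zero.1 h4).resolve_right (b.ne_zero j))
    rw [h3, h5]
  · rw [eig_top]
    exact hα0
  · rw [eig_top]
    exact hsmall

/-- A strongly irreducible space is semisimple for all subgroups of finite index. -/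
theorem hasProj_of_SI (hX : SI R (⊤ : Submodule K X)) : HasProj R := by
  intro Δ hΔ W hW
  rcases hX.2.2 W le_top ⟨Δ, hΔ, hW⟩ with h | h
  · refine ⟨0, fun v => ?_, fun v hv => ?_, fun g _ v => ?_⟩
    · rw [LinearMap.zero_apply]
      exact W.zero_mem
    · rw [h, Submodule.mem_bot] at hv
      rw [hv, map_zero]
    · rw [LinearMap.zero_apply, LinearMap.zero_apply, map_zero]
  · refine ⟨1, fun v => ?_, fun v _ => rfl, fun g _ v => rfl⟩
    rw [h]
    exact Submodule.mem_top

/-- The main theorem over an algebraically closed field. -/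
theorem small_pt (ω : X →ₗ[K] X →ₗ[K] K) (halt : ∀ v, ω v v = 0)
    (hnd : ∀ u, (∀ v, ω u v = 0) → u = 0)
    (hωR : ∀ g u v, ω (R g u) (R g v) = χ g * ω u v)
    (hX : SI R (⊤ : Submodule K X)) (hin : HasSmallInertia R χ) (hF : HasFrobenius R)
    {m : ℕ} (φ : MultilinearMap K (fun _ : Fin m × Fin 2 => X) K) (hφ : IsTate R χ m φ) :
    φ ∈ Submodule.span K (PT R χ m) := by
  have hss := hasProj_of_SI hX
  obtain ⟨N, hN1, hN2, hN3, hN4⟩ := small_N' halt hnd hωR hX hin hF
  have htop : ∀ U, SI R U → U = ⊤ := by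
    intro U hU
    exact (hX.2.2 U le_top hU.2.1).resolve_left hU.1
  have hne : (⊤ : Submodule K X).map N ≠ ⊥ := by
    intro h
    apply hN3
    apply LinearMap.ext
    intro v
    have h1 : N v ∈ (⊤ : Submodule K X).map N := Submodule.mem_map_of_mem Submodule.mem_top
    rw [h, Submodule.mem_bot] at h1
    exact h1
  have hω0 : ∃ u ∈ (⊤ : Submodule K X), ∃ v ∈ (⊤ : Submodule K X), ω u v ≠ 0 := by
    obtain ⟨u, -, hu⟩ := Submodule.exists_mem_ne_zero_of_ne_bot hX.1
    by_contra hcon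
    push Not at hcon
    exact hu (hnd u fun v => hcon u Submodule.mem_top v Submodule.mem_top)
  have haltd : ∀ U, SI R U → AltDual R χ U := by
    intro U hU
    rw [htop U hU]
    exact ⟨⊤, inferInstance, ω, hω0, fun w _ => halt w, fun g _ w _ w' _ => hωR g w w'⟩
  have hsd : ∀ U, SI R U → Du R χ U U := by
    intro U hU
    obtain ⟨Δ, hΔ, B, h0, -, hB⟩ := haltd U hU
    exact ⟨Δ, hΔ, B, h0, hB⟩
  refine detProd_pt hsd φ (Pool.Agent.TH118.CU.nil_det ω hnd hωR ?_ hss ?_ ?_ φ hφ)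
  · intro U hU _
    have h1 := haltd U hU
    rw [htop U hU] at h1 ⊢
    exact ⟨N, hN1, hN2, Or.inr ⟨hne, h1, coreProp_nil hX hN1 hN2 hne hN4⟩⟩
  · intro U hU h1
    -- the dimension is at least two
    exfalso
    rw [htop U hU] at h1
    obtain ⟨u, -, v, -, huv⟩ := hω0
    have h2 : (⟨u, Submodule.mem_top⟩ : (⊤ : Submodule K X)) ≠ 0 := by
      intro h
      have h3 : u = 0 := congrArg Subtype.val h
      rw [h3, map_zero, LinearMap.zero_apply] at huv
      exact huv rfl
    obtain ⟨c, hc⟩ := (finrank_eq_one_iff_of_nonzero' _ h2).1 h1 ⟨v, Submodule.mem_top⟩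
    have h3 : c • u = v := congrArg Subtype.val hc
    rw [← h3, map_smul, halt, smul_zero] at huv
    exact huv rfl
  · intro U U' hU _ _ hnsd
    exact absurd (hsd U hU) hnsd

end Pool.Agent.TH118.SC
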